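import Pool.Agent.H.MP_df6699_an.L

set_option autoImplicit false

namespace Pool.Agent.Results.MP_df6699_an.Q1

theorem result : ∃ (ρ K : ℝ) (a : ℕ → ℂ) (f : ℂ → ℂ), 0 < ρ ∧ 0 < K ∧
    (∀ n : ℕ, 1 ≤ n → ∀ z : ℂ, 0 < z.re → |z.im| < K * z.re ^ (1 - ρ / 2) →
      ∑ k ∈ Finset.range (n + 1), a k * z ^ k ≠ 0) ∧
    (∀ z : ℂ, HasSum (fun k => a k * z ^ k) (f z)) ∧
    ∃ ε : ℝ, 0 < ε ∧ ∀ R : ℝ, ∃ z : ℂ, R ≤ ‖z‖ ∧ Real.exp (‖z‖ ^ (ρ + ε)) ≤ ‖f z‖ := by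
  obtain ⟨a, f, h1, h2, h3⟩ := H.MP_df6699_an.final
  refine ⟨2, 1, a, f, two_pos, one_pos, fun n hn z a1 a2 => ?_, h2, 1 / 282, by norm_num, h3⟩
  exact h1 (n + 1) (by omega) z a1.le (by norm_num at a2; exact a2.le)

end Pool.Agent.Results.MP_df6699_an.Q1
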